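import Pool.Agent.H57.CN.Targets

/-! Row RLX of `chn_modules`: relative local completions for types of tuples. -/

set_option autoImplicit false

namespace Pool.Agent.H67.CN

open Pool.Agent.H68.BP Pool.Agent.H58.SF Pool.Agent.H53.NR
open Pool.Agent.H57.LCI (Pre Realizes)
open Pool.Agent.H57.AR (tp ty Ty)
open Pool.Agent.H57.LH (Hmg tp_iff)
open Pool.Agent.H72.CH Pool.Agent.H57.CN
open Function

/-- representatives of the places of a tuple -/
theorem reps {r : ℕ} {X : Type} (z : Fin r → X) :
    ∃ (k : ℕ) (rep : Fin k → Fin r) (cl : Fin r → Fin k), k ≤ r ∧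
      Injective (fun i => z (rep i)) ∧ ∀ i, z (rep (cl i)) = z i := by
  classical
  let S : Finset X := Finset.univ.image z
  have hS : ∀ j : Fin S.card, ∃ i : Fin r, z i = (S.equivFin.symm j : X) := by
    intro j
    have h := (S.equivFin.symm j).2
    obtain ⟨i, -, hi⟩ := Finset.mem_image.1 h
    exact ⟨i, hi⟩
  choose rep hrep using hS
  refine ⟨S.card, rep, fun i => S.equivFin ⟨z i, Finset.mem_image_of_mem z (Finset.mem_univ i)⟩,
    ?_, ?_, ?_⟩
  · exact (Finset.card_image_le).trans (by simp)
  · intro i j hij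
    have h : z (rep i) = z (rep j) := hij
    rw [hrep, hrep] at h
    exact S.equivFin.symm.injective (Subtype.ext h)
  · intro i
    rw [hrep, Equiv.symm_apply_apply]

theorem pf_RLX : T_RLX := by
  classical
  intro V ρ 𝔹 m lv hV r
  obtain ⟨M, hM⟩ := hV.rlc r
  refine ⟨M, ?_⟩
  intro X Λ _ lam z y hP hinj hly hloc
  obtain ⟨n, ⟨e⟩⟩ := Finite.exists_equiv_fin X
  have hr := fun a => reps (z a)
  choose k rep cl hk hrep hcl using hr
  have hyr : ∀ a i, y a (rep a (cl a i)) = y a i := by
    intro a i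
    refine hV.lev.eq _ _ ?_
    rw [hly, hcl, hP.self]
  let P : Set (Pre ρ (Fin n)) := {p | ∃ a, p = ⟨k a, fun i => e (z a (rep a i)),
    pull 𝔹 (fun i => y a (rep a i))⟩}
  have hmain : ∃ f : Fin n → V, (∀ x x', lv (f x) (f x') = lam (e.symm x) (e.symm x')) ∧
      ∀ p ∈ P, Realizes 𝔹 f p := by
    refine hM n (fun x x' => lam (e.symm x) (e.symm x')) P
      ⟨fun x y => hP.le _ _, fun x => hP.self _, fun x y => hP.sym _ _,
        fun x y z => hP.ult _ _ _⟩ ?_ ?_
    · rintro p ⟨a, rfl⟩
      exact hk a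
    · intro U hU
      obtain ⟨f, hf1, hf2⟩ := hloc (U.map e.symm.toEmbedding) (by rwa [Finset.card_map])
      have hmem : ∀ x ∈ U, e.symm x ∈ U.map e.symm.toEmbedding := fun x hx =>
        Finset.mem_map_of_mem _ hx
      refine ⟨fun x => f (e.symm x), fun x hx x' hx' => hf1 _ (hmem x hx) _ (hmem x' hx'), ?_⟩
      rintro p ⟨a, rfl⟩ hpU
      have h1 : ∀ i, z a (rep a i) ∈ U.map e.symm.toEmbedding := by
        intro i
        have h2 := hmem _ (hpU i)
        simpa using h2
      have h3 : ∀ i, z a i ∈ U.map e.symm.toEmbedding := fun i => by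
        rw [← hcl a i]
        exact h1 _
      have h4 := hf2 a h3
      have h5 := tp_iff.1 h4
      refine ⟨⟨?_, ?_⟩, ?_⟩
      · intro i j hij
        have h6 : f (z a (rep a i)) = f (z a (rep a j)) := by
          have h7 : f (e.symm (e (z a (rep a i)))) = f (e.symm (e (z a (rep a j)))) := hij
          simpa using h7
        have h8 : y a (rep a i) = y a (rep a j) := (h5.1 _ _).1 h6
        refine hrep a (hinj _ _ ?_)
        rw [← hly, h8, hV.lev.pl.self]
      · intro l w
        have h6 := h5.2 l (fun q => rep a (w q))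
        show 𝔹 l (fun q => y a (rep a (w q))) ↔
          𝔹 l (fun q => f (e.symm (e (z a (rep a (w q))))))
        simp only [Equiv.symm_apply_apply]
        exact h6.symm
      · intro i j
        show lv (f (e.symm (e (z a (rep a i))))) (f (e.symm (e (z a (rep a j))))) =
          lam (e.symm (e (z a (rep a i)))) (e.symm (e (z a (rep a j))))
        simp only [Equiv.symm_apply_apply]
        rw [lv_tp hV h4, hly]
  obtain ⟨f, hf1, hf2⟩ := hmain
  have hlev : ∀ x x', lv (f (e x)) (f (e x')) = lam x x' := by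
    intro x x'
    rw [hf1, Equiv.symm_apply_apply, Equiv.symm_apply_apply]
  refine ⟨fun x => f (e x), hlev, ?_⟩
  intro a
  refine tp_iff.2 ⟨?_, ?_⟩
  · intro i j
    constructor
    · intro h
      have h' : f (e (z a i)) = f (e (z a j)) := h
      refine hV.lev.eq _ _ ?_
      rw [hly, ← hlev, h', hV.lev.pl.self]
    · intro h
      refine hV.lev.eq _ _ ?_
      rw [hlev, ← hly, h, hV.lev.pl.self]
  · intro l w
    have h1 := (hf2 _ ⟨a, rfl⟩).2 l (fun q => cl a (w q))
    have h2 : 𝔹 l (fun q => y a (rep a (cl a (w q)))) ↔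
        𝔹 l (fun q => f (e (z a (rep a (cl a (w q)))))) := h1
    simp only [hyr, hcl] at h2
    exact h2.symm

end Pool.Agent.H67.CN
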